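import Pool.Agent.helper60.DA.SpecV

/-!
# Row dv:JST
-/

namespace Pool.Agent.helper60.DA

open Polynomial Finset Pool.Agent.helper60.DK

theorem JST_aux1 (c : ℤ) (y z : ℤ[X]) : ∃ Z : ℤ[X], Jop (y + C c * z) = Jop y + C c * Z := by
  refine ⟨4 * X ^ 2 * (1 + X) ^ 2 * (1 + 4 * X) *
      (2 * y * derivative (derivative z) + 2 * z * derivative (derivative y)
        + 2 * C c * z * derivative (derivative z)
        - 2 * derivative y * derivative z - C c * (derivative z) ^ 2)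
    + 8 * X * (1 + X) * (1 + 8 * X + 10 * X ^ 2) *
      (y * derivative z + z * derivative y + C c * z * derivative z)
    + (12 * X + 51 * X ^ 2 + 36 * X ^ 3) * (2 * y * z + C c * z ^ 2), ?_⟩
  unfold Jop
  simp only [derivative_add, derivative_C_mul]
  ring

theorem JST (h : ST_stmt) : JST_stmt := by
  intro p hp h7
  obtain ⟨Z, hZ⟩ := h p (by omega)
  have h1 : C ((p : ℤ) ^ 2) ∣ Jop (Sz p) := by
    rw [C_dvd_iff_dvd_coeff]
    intro i
    exact Jop_Sz_dvd (p := p) h7 i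
  obtain ⟨A, hA⟩ := h1
  have h2 : St p = Sz p + C ((p : ℤ) ^ 2) * (-Z) := by
    rw [hZ]; ring
  obtain ⟨B, hB⟩ := JST_aux1 ((p : ℤ) ^ 2) (Sz p) (-Z)
  refine ⟨A + B, ?_⟩
  rw [h2, hB, hA]
  ring

end Pool.Agent.helper60.DA
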